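import Pool.Agent.MP_660ce2_nt.pm.Main

set_option autoImplicit false

namespace Pool.Agent.Results.MP_660ce2_nt.KlingenLevels

open Pool.Agent.MP_660ce2_nt

/-- Weight `(j, k) = (8, 4)`, modulus `691`, prime level `p ≡ -1 (mod 691)`, `p ≢ 11 (mod 12)`:
there are no oldforms, and there is a paramodular cusp form of level `p`, an eigenform of all
`T(q)`, `q ≠ p`, with `b_q ≡ q^(k-2) + (1 + q^13) + q^(j+k-1)`. -/
theorem result (p : ℕ) (hp : p.Prime) (h691 : p % 691 = 690) (h12 : p % 12 ≠ 11)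
    (P : Ideal (integralClosure ℤ ℂ)) (hP : P.IsPrime) (hl : (691 : integralClosure ℤ ℂ) ∈ P) :
    (∀ G : Fn, IsCuspForm 1 8 4 G → ∀ Z ∈ H2, G Z = 0) ∧
    ∃ (F : Fn) (b : ℕ → integralClosure ℤ ℂ), IsCuspForm p 8 4 F ∧ (∃ Z ∈ H2, F Z ≠ 0) ∧
      ∀ q : ℕ, q.Prime → q ≠ p →
        (∀ Z ∈ H2, heckeT 8 4 q F Z = (b q : ℂ) • F Z) ∧
        b q - ((q : integralClosure ℤ ℂ) ^ 2 + (1 + (q : integralClosure ℤ ℂ) ^ 13)
          + (q : integralClosure ℤ ℂ) ^ 11) ∈ P := by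
  refine ⟨fun G => level_one, ?_⟩
  obtain ⟨A, hA, h0, b, hb⟩ := main hp h691 h12 P (by exact_mod_cast hl)
  have hG := good_of_W hp.pos hA.1
  refine ⟨FA A, b, hG.isCuspForm (Or.inr hp) (W0_sing (Or.inr hp) hA), ?_, fun q h1 h2 =>
    ⟨fun Z hZ => ?_, ?_⟩⟩
  · by_contra hc
    push Not at hc
    refine h0 (funext fun T => funext fun u => uniqT (c := fun T => A T u) (fun τ z τ' h => ?_) T)
    exact hs_congr (hG.summ h u).hasSum (fun _ => rfl)
      (congrFun (hc _ (mk_mem.mpr h)) u).symm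
  · rw [hG.hecke h1.pos Z hZ, (hb q h1 h2).1]
    exact funext fun u => FS_smul _ _ _ _ _ u
  · convert (hb q h1 h2).2 using 2
    push_cast; ring

end Pool.Agent.Results.MP_660ce2_nt.KlingenLevels
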